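import Pool.Agent.Run7.h892.CG.Stm

/-! # CG, piece IDL: coprime integral ideals in given classes (helper228) -/

set_option autoImplicit false

namespace Pool.Agent.Run7.h228.CG

open NumberField nonZeroDivisors Pool.Agent.Run7.h892.CG

variable {F : Type} [Field F] [NumberField F]

/-- a prime ideal not dividing a given nonzero ideal -/
theorem exists_prime_not (N : Ideal (𝓞 F)) (hN : N ≠ ⊥) :
    ∃ P : Ideal (𝓞 F), P.IsMaximal ∧ P ≠ ⊥ ∧ ¬ N ≤ P := by
  have h0 : Ideal.absNorm N ≠ 0 := by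
    rw [Ne, Ideal.absNorm_eq_zero_iff]
    exact hN
  have h1 : Ideal.span {((Ideal.absNorm N + 1 : ℕ) : 𝓞 F)} ≠ ⊤ := by
    intro h
    have h2 := congrArg Ideal.absNorm h
    rw [Ideal.absNorm_span_natCast, Ideal.absNorm_top] at h2
    have h3 : 0 < Module.finrank ℤ (𝓞 F) := Module.finrank_pos
    have h4 := (Nat.pow_eq_one.1 h2).resolve_right h3.ne'
    omega
  obtain ⟨P, hP, hle⟩ := Ideal.exists_le_maximal _ h1
  have hmem : ((Ideal.absNorm N + 1 : ℕ) : 𝓞 F) ∈ P := hle (Ideal.mem_span_singleton_self _)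
  refine ⟨P, hP, ?_, ?_⟩
  · rintro rfl
    rw [Ideal.mem_bot, Nat.cast_eq_zero] at hmem
    omega
  · intro hNP
    have h2 : ((Ideal.absNorm N : ℕ) : 𝓞 F) ∈ P := hNP (Ideal.absNorm_mem N)
    apply hP.ne_top
    rw [Ideal.eq_top_iff_one]
    have h3 := P.sub_mem hmem h2
    push_cast at h3
    rwa [add_sub_cancel_left] at h3

theorem mk0_mul' {A B : Ideal (𝓞 F)} (hA : A ≠ ⊥) (hB : B ≠ ⊥) (hAB : A * B ≠ ⊥) :
    ClassGroup.mk0 ⟨A * B, mem_nonZeroDivisors_of_ne_zero hAB⟩ =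
      ClassGroup.mk0 ⟨A, mem_nonZeroDivisors_of_ne_zero hA⟩ *
        ClassGroup.mk0 ⟨B, mem_nonZeroDivisors_of_ne_zero hB⟩ := by
  rw [← map_mul]
  rfl

theorem exists_ide (havo : S_AVO) : ∀ (R : ℕ) (c : Fin R → ClassGroup (𝓞 F)),
    ∃ I P : Fin R → Ideal (𝓞 F), Ide F R c I P := by
  intro R
  induction R with
  | zero =>
    intro c
    exact ⟨fun _ => ⊤, fun _ => ⊤, ⟨fun i => i.elim0, fun i => i.elim0, fun i => i.elim0,
      fun i => i.elim0, fun i => i.elim0, fun i => i.elim0, fun i => i.elim0⟩⟩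
  | succ R ih =>
    intro c
    obtain ⟨I, P, h⟩ := ih (fun i => c i.succ)
    have hN : ∏ i, I i ≠ ⊥ := Finset.prod_ne_zero_iff.2 fun i _ => h.ne i
    obtain ⟨P0, hP0, hP0b, hP0N⟩ := exists_prime_not _ hN
    have hNP : (∏ i, I i) * P0 ≠ ⊥ := mul_ne_zero hN hP0b
    obtain ⟨A, hA, hAc, hAN⟩ := havo F (c 0 *
      (ClassGroup.mk0 ⟨P0, mem_nonZeroDivisors_of_ne_zero hP0b⟩)⁻¹) _ hNP
    have hPA : P0 * A ≠ ⊥ := mul_ne_zero hP0b hA
    have hcop : IsCoprime (P0 * A) (∏ i, I i) := by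
      refine IsCoprime.mul_left ?_ (IsCoprime.of_mul_right_left hAN)
      rw [Ideal.isCoprime_iff_sup_eq]
      by_contra h1
      have h2 := hP0.eq_of_le h1 le_sup_left
      exact hP0N (by rw [h2]; exact le_sup_right)
    have hdvd : ∀ i, I i ∣ ∏ i, I i := fun i => Finset.dvd_prod_of_mem I (Finset.mem_univ i)
    refine ⟨Fin.cons (P0 * A) I, Fin.cons P0 P, ⟨?_, ?_, ?_, ?_, ?_, ?_, ?_⟩⟩
    · intro i
      refine Fin.cases ?_ (fun i => ?_) i
      · exact hPA
      · exact h.ne i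
    · intro i
      refine Fin.cases ?_ (fun i => ?_) i
      · show ClassGroup.mk0 ⟨P0 * A, mem_nonZeroDivisors_of_ne_zero hPA⟩ = c 0
        rw [mk0_mul' hP0b hA hPA, hAc, mul_comm, inv_mul_cancel_right]
      · exact h.cls i
    · intro i
      refine Fin.cases ?_ (fun i => ?_) i
      · exact hP0.isPrime
      · exact h.prime i
    · intro i
      refine Fin.cases ?_ (fun i => ?_) i
      · exact hP0b
      · exact h.ne' i
    · intro i
      refine Fin.cases ?_ (fun i => ?_) i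
      · exact dvd_mul_right _ _
      · exact h.dvd i
    · intro i
      refine Fin.cases ?_ (fun i => ?_) i
      · show ¬ P0 ^ 2 ∣ P0 * A
        intro h1
        rw [sq] at h1
        have h2 : P0 ∣ A := (mul_dvd_mul_iff_left hP0b).1 h1
        have h3 : IsCoprime P0 P0 :=
          (IsCoprime.of_mul_right_right hAN).of_isCoprime_of_dvd_left h2
        rw [isCoprime_self, Ideal.isUnit_iff] at h3
        exact hP0.ne_top h3
      · exact h.sq i
    · intro i j
      refine Fin.cases ?_ (fun i => ?_) i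
      · refine Fin.cases ?_ (fun j => ?_) j
        · intro h1
          exact absurd rfl h1
        · intro _
          exact hcop.of_isCoprime_of_dvd_right (hdvd j)
      · refine Fin.cases ?_ (fun j => ?_) j
        · intro _
          exact (hcop.of_isCoprime_of_dvd_right (hdvd i)).symm
        · intro h1
          exact h.cop i j fun h2 => h1 (by rw [h2])

/-- **IDL** -/
theorem t_IDL : S_AVO → S_IDL := by
  intro havo F _ _ R c
  obtain ⟨I, P, h⟩ := exists_ide havo R c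
  have hN : ∏ i, I i ≠ ⊥ := Finset.prod_ne_zero_iff.2 fun i _ => h.ne i
  obtain ⟨J, hJ, hJc, hJN⟩ := havo F
    (ClassGroup.mk0 ⟨_, mem_nonZeroDivisors_of_ne_zero hN⟩)⁻¹ _ hN
  have hNJ : (∏ i, I i) * J ≠ ⊥ := mul_ne_zero hN hJ
  have h1 : ClassGroup.mk0 ⟨_, mem_nonZeroDivisors_of_ne_zero hNJ⟩ = 1 := by
    rw [mk0_mul' hN hJ hNJ, hJc, mul_inv_cancel]
  rw [ClassGroup.mk0_eq_one_iff] at h1
  obtain ⟨δ, hδ⟩ := h1.principal
  refine ⟨I, P, J, δ, h, ?_, hδ.symm, hJN.symm⟩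
  rintro rfl
  apply hNJ
  rw [hδ]
  exact Ideal.span_singleton_eq_bot.2 rfl

end Pool.Agent.Run7.h228.CG
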