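import Pool.Agent.Run7.h892.CG.Stm

/-! # CG, piece RAD: independence of radicals (helper228) -/

set_option autoImplicit false

namespace Pool.Agent.Run7.h228.CG

open Polynomial Pool.Agent.Run7.h892.CG

theorem trace_zero {F K : Type} [Field F] [Field K] [Algebra F K] [FiniteDimensional F K] {ℓ : ℕ}
    (hℓ : ℓ.Prime) (hd : Module.finrank F K = ℓ) (η : K) (a : F)
    (ha : η ^ ℓ = algebraMap F K a) (hη : η ∉ (algebraMap F K).range) :
    Algebra.trace F K η = 0 := by
  have hint : IsIntegral F η := .of_finite F η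
  have h1 : (minpoly F η).natDegree ∣ ℓ := by
    rw [← hd, ← IntermediateField.adjoin.finrank hint]
    exact ⟨_, (Module.finrank_mul_finrank F (IntermediateField.adjoin F {η}) K).symm⟩
  have h2 : (minpoly F η).natDegree ≠ 1 := fun h => hη (minpoly.natDegree_eq_one_iff.1 h)
  have h3 : (minpoly F η).natDegree = ℓ := (Nat.dvd_prime hℓ).1 h1 |>.resolve_left h2
  have h4 : X ^ ℓ - C a = minpoly F η := by
    refine eq_of_monic_of_dvd_of_natDegree_le (minpoly.monic hint) (monic_X_pow_sub_C a hℓ.ne_zero)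
      (minpoly.dvd F η ?_) ?_
    · simp [ha]
    · rw [natDegree_X_pow_sub_C, h3]
  rw [trace_eq_finrank_mul_minpoly_nextCoeff, ← h4]
  have h5 : (X ^ ℓ - C a : F[X]).nextCoeff = 0 := by
    have h6 := hℓ.two_le
    rw [nextCoeff_of_natDegree_pos (by rw [natDegree_X_pow_sub_C]; exact hℓ.pos),
      natDegree_X_pow_sub_C, coeff_sub, coeff_X_pow, coeff_C, if_neg (by omega),
      if_neg (by omega), sub_zero]
  rw [h5, neg_zero, mul_zero]

/-- **RAD** -/
theorem t_RAD : S_RAD := by
  intro F K _ _ _ _ _ ℓ hℓ hd s ω h0 hp hne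
  have hlin : LinearIndependent F ω := by
    rw [Fintype.linearIndependent_iff]
    intro g hg j
    have h1 : ∑ i, g i • (ω i * (ω j)⁻¹) = 0 := by
      have h2 : ∑ i, g i • (ω i * (ω j)⁻¹) = (∑ i, g i • ω i) * (ω j)⁻¹ := by
        rw [Finset.sum_mul]
        exact Finset.sum_congr rfl fun i _ => by rw [smul_mul_assoc]
      rw [h2, hg, zero_mul]
    have h3 := congrArg (Algebra.trace F K) h1
    rw [map_sum, map_zero, Finset.sum_eq_single j] at h3
    · rw [map_smul, mul_inv_cancel₀ (h0 j)] at h3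
      have h4 : Algebra.trace F K 1 = (ℓ : F) := by
        rw [← hd]
        have h5 := Algebra.trace_algebraMap (R := F) (S := K) 1
        rw [map_one, nsmul_eq_mul, mul_one] at h5
        exact h5
      rw [h4, smul_eq_mul] at h3
      exact (mul_eq_zero.1 h3).resolve_right (Nat.cast_ne_zero.2 hℓ.ne_zero)
    · intro i _ hij
      rw [map_smul]
      obtain ⟨a, ha⟩ := hp i
      obtain ⟨b, hb⟩ := hp j
      rw [trace_zero hℓ hd _ (a * b⁻¹) ?_ ?_, smul_zero]
      · rw [mul_pow, inv_pow, ha, hb, map_mul, map_inv₀]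
      · rintro ⟨c, hc⟩
        apply hne i j hij c
        rw [hc, inv_mul_cancel_right₀ (h0 j)]
    · intro h
      exact absurd (Finset.mem_univ j) h
  have h6 := hlin.fintype_card_le_finrank
  rwa [Fintype.card_fin, hd] at h6

end Pool.Agent.Run7.h228.CG
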