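import Pool.Agent.Run7.h892.CG.Stm

/-! # CG, piece SQU: squares in quadratic fields (helper228) -/

set_option autoImplicit false

namespace Pool.Agent.Run7.h228.CG

open Pool.Agent.Run7.h892.CG

theorem val_prod {t : ℕ} (p : Fin t → ℕ) (hp : ∀ i, (p i).Prime) (hinj : Function.Injective p)
    (e : Fin t → ℤ) (i : Fin t) (s : Finset (Fin t)) :
    (∏ j ∈ s, (p j : ℚ) ^ e j) ≠ 0 ∧
      padicValRat (p i) (∏ j ∈ s, (p j : ℚ) ^ e j) = if i ∈ s then e i else 0 := by
  classical
  have : Fact (p i).Prime := ⟨hp i⟩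
  have hne : ∀ j, (p j : ℚ) ≠ 0 := fun j => Nat.cast_ne_zero.2 (hp j).ne_zero
  induction s using Finset.induction_on with
  | empty => simp
  | insert j s hj ih =>
    rw [Finset.prod_insert hj]
    refine ⟨mul_ne_zero (zpow_ne_zero _ (hne j)) ih.1, ?_⟩
    rw [padicValRat.mul (zpow_ne_zero _ (hne j)) ih.1, ih.2, padicValRat.zpow]
    by_cases hij : i = j
    · subst hij
      rw [if_neg hj, if_pos (Finset.mem_insert_self _ _), padicValRat.self (hp i).one_lt]
      ring
    · have h1 : padicValRat (p i) (p j : ℚ) = 0 := by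
        rw [padicValRat.of_nat]
        have : Fact (p j).Prime := ⟨hp j⟩
        rw [Nat.cast_eq_zero, padicValNat_primes (fun h => hij (hinj h))]
      rw [h1, mul_zero, zero_add]
      congr 1
      rw [Finset.mem_insert]
      exact propext ⟨fun h => Or.inr h, fun h => h.resolve_left hij⟩

/-- **SQU** -/
theorem t_SQU : S_SQU := by
  classical
  intro K _ _ t p θ y ε e ht hd hinj hp hθ hε hy
  have hne : ∀ j, (p j : ℚ) ≠ 0 := fun j => Nat.cast_ne_zero.2 (hp j).ne_zero
  -- valuations
  have hD : ∀ i, (∏ j, (p j : ℚ)) ≠ 0 ∧ padicValRat (p i) (∏ j, (p j : ℚ)) = 1 := by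
    intro i
    have h1 := val_prod p hp hinj (fun _ => 1) i Finset.univ
    simp only [zpow_one, Finset.mem_univ, if_true] at h1
    exact h1
  have hM : ∀ i, (∏ j, (p j : ℚ) ^ e j) ≠ 0 ∧
      padicValRat (p i) (∏ j, (p j : ℚ) ^ e j) = e i := by
    intro i
    have h1 := val_prod p hp hinj e i Finset.univ
    simp only [Finset.mem_univ, if_true] at h1
    exact h1
  obtain ⟨D, hDdef⟩ : ∃ D : ℚ, D = ∏ j, (p j : ℚ) := ⟨_, rfl⟩
  obtain ⟨M, hMdef⟩ : ∃ M : ℚ, M = ∏ j, (p j : ℚ) ^ e j := ⟨_, rfl⟩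
  rw [← hDdef] at hD
  rw [← hMdef] at hM
  have hθ' : θ ^ 2 = algebraMap ℚ K D := by
    rw [hθ, hDdef, map_prod]
    simp
  have hy' : y ^ 2 = algebraMap ℚ K (ε * M) := by
    rw [hy, hMdef, map_mul, map_prod]
    simp
  have hε0 : ε ≠ 0 := by
    rcases hε with rfl | rfl <;> norm_num
  have hεv : ∀ i, padicValRat (p i) ε = 0 := by
    intro i
    rcases hε with rfl | rfl
    · exact padicValRat.one
    · rw [padicValRat.neg, padicValRat.one]
  -- `θ` is not rational
  have hirr : ∀ q : ℚ, θ ≠ algebraMap ℚ K q := by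
    intro q hq
    have i : Fin t := ⟨0, ht⟩
    have : Fact (p i).Prime := ⟨hp i⟩
    rw [hq, ← map_pow] at hθ'
    have h1 : q ^ 2 = D := (algebraMap ℚ K).injective hθ'
    have hq0 : q ≠ 0 := by
      rintro rfl
      exact (hD i).1 (by rw [← h1]; norm_num)
    have h2 := (hD i).2
    rw [← h1, padicValRat.pow] at h2
    push_cast at h2
    omega
  -- the basis
  have hlin : LinearIndependent ℚ ![(1 : K), θ] := by
    rw [LinearIndependent.pair_iff]
    intro a b hab
    have hb : b = 0 := by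
      by_contra hb
      apply hirr (-a / b)
      have h1 : a • (1 : K) = algebraMap ℚ K a := by
        rw [Algebra.smul_def, mul_one]
      have h2 : b • θ = algebraMap ℚ K b * θ := Algebra.smul_def _ _
      rw [h1, h2] at hab
      have h3 : algebraMap ℚ K b ≠ 0 := (map_ne_zero _).2 hb
      rw [map_div₀, map_neg]
      field_simp
      linear_combination hab
    subst hb
    rw [zero_smul, add_zero] at hab
    exact ⟨(smul_eq_zero.1 hab).resolve_right one_ne_zero, rfl⟩
  have hspan := hlin.span_eq_top_of_card_eq_finrank' (by rw [hd]; rfl)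
  have hymem : y ∈ Submodule.span ℚ (Set.range ![(1 : K), θ]) := by
    rw [hspan]
    exact Submodule.mem_top
  rw [Matrix.range_cons, Matrix.range_cons, Matrix.range_empty, Set.union_empty,
    Set.singleton_union, Submodule.mem_span_pair] at hymem
  obtain ⟨a, b, hab⟩ := hymem
  have hab' : y = algebraMap ℚ K a + algebraMap ℚ K b * θ := by
    rw [← hab, Algebra.smul_def, Algebra.smul_def, mul_one]
  have hsq : algebraMap ℚ K (ε * M) =
      algebraMap ℚ K (a ^ 2 + b ^ 2 * D) + algebraMap ℚ K (2 * a * b) * θ := by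
    rw [← hy', hab']
    simp only [map_add, map_mul, map_pow, map_ofNat, ← hθ']
    ring
  have hab0 : a * b = 0 := by
    by_contra h
    apply hirr ((ε * M - (a ^ 2 + b ^ 2 * D)) / (2 * a * b))
    have h3 : algebraMap ℚ K (2 * a * b) ≠ 0 := by
      rw [map_ne_zero]
      intro h4
      apply h
      linarith
    rw [map_div₀, map_sub, eq_div_iff h3]
    linear_combination -hsq
  have hsq' : ε * M = a ^ 2 + b ^ 2 * D := by
    apply (algebraMap ℚ K).injective
    rw [hsq]
    have : 2 * a * b = 0 := by linarith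
    rw [this, map_zero, zero_mul, add_zero]
  have hval : ∀ i, e i = padicValRat (p i) (a ^ 2 + b ^ 2 * D) := by
    intro i
    have : Fact (p i).Prime := ⟨hp i⟩
    rw [← hsq', padicValRat.mul hε0 (hM i).1, hεv, (hM i).2, zero_add]
  intro i j
  have : Fact (p i).Prime := ⟨hp i⟩
  have : Fact (p j).Prime := ⟨hp j⟩
  have hne0 : a ^ 2 + b ^ 2 * D ≠ 0 := by
    rw [← hsq']
    exact mul_ne_zero hε0 (hM i).1
  rw [hval i, hval j]
  rcases mul_eq_zero.1 hab0 with rfl | rfl
  · have hb : b ≠ 0 := by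
      rintro rfl
      apply hne0
      ring
    have h1 : (0 : ℚ) ^ 2 + b ^ 2 * D = b ^ 2 * D := by ring
    rw [h1, padicValRat.mul (pow_ne_zero 2 hb) (hD i).1, padicValRat.mul (pow_ne_zero 2 hb) (hD j).1,
      padicValRat.pow, padicValRat.pow, (hD i).2, (hD j).2]
    push_cast
    exact ⟨padicValRat (p i) b - padicValRat (p j) b, by ring⟩
  · have ha : a ≠ 0 := by
      rintro rfl
      apply hne0
      ring
    have h1 : a ^ 2 + (0 : ℚ) ^ 2 * D = a ^ 2 := by ring
    rw [h1, padicValRat.pow, padicValRat.pow]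
    push_cast
    exact ⟨padicValRat (p i) a - padicValRat (p j) a, by ring⟩

end Pool.Agent.Run7.h228.CG
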